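import Pool.Agent.H19.Cond

/-! Linear condensations of `C_p`-spaces preserve analyticity. -/

namespace Pool.Agent.Results.MP_1f8704_gt.Linear

universe u v

/-- `C_p(X)`: the continuous real functions, a subspace of the product `ℝ^X`. -/
abbrev Cp (X : Type*) [TopologicalSpace X] : Type _ := {f : X → ℝ // Continuous f}

/-- Linearity of a map between `C_p`-spaces. -/
def IsLinear {X Y : Type*} [TopologicalSpace X] [TopologicalSpace Y] (T : Cp X → Cp Y) : Prop :=
  ∀ (a b : ℝ) (f g h : Cp X), (∀ x, h.1 x = a * f.1 x + b * g.1 x) →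
    ∀ y, (T h).1 y = a * (T f).1 y + b * (T g).1 y

/-- Analytic spaces: continuous images of the irrationals `ω^ω`. -/
def Analytic (X : Type*) [TopologicalSpace X] : Prop :=
  ∃ f : (ℕ → ℕ) → X, Continuous f ∧ Function.Surjective f

theorem result (X : Type u) (Y : Type v) [TopologicalSpace X] [TopologicalSpace Y]
    [T35Space X] [T35Space Y] (hX : Analytic X) (T : Cp X → Cp Y) (hl : IsLinear T)
    (hT : Continuous T) (hb : Function.Bijective T) : Analytic Y := by
  obtain ⟨f, hf, hf'⟩ := hX
  haveI : Nonempty Y := by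
    by_contra h
    rw [not_nonempty_iff] at h
    have h1 : (⟨fun _ => 1, continuous_const⟩ : Cp X) = ⟨fun _ => 0, continuous_const⟩ :=
      hb.1 (Subsingleton.elim _ _)
    exact one_ne_zero (congrFun (congrArg Subtype.val h1) (f 0))
  let S : C(X, ℝ) →ₗ[ℝ] C(Y, ℝ) :=
    { toFun := fun g => ⟨(T ⟨g, g.continuous⟩).1, (T ⟨g, g.continuous⟩).2⟩
      map_add' := fun g h => ContinuousMap.ext fun y => by
        simpa using hl 1 1 ⟨g, g.continuous⟩ ⟨h, h.continuous⟩ ⟨_, (g + h).continuous⟩
          (by simp) y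
      map_smul' := fun c g => ContinuousMap.ext fun y => by
        simpa using hl c 0 ⟨g, g.continuous⟩ ⟨g, g.continuous⟩ ⟨_, (c • g).continuous⟩
          (by simp) y }
  refine Pool.Agent.H19.Cond.analytic hf hf' (T := S) ?_ fun g => ?_
  · letI : TopologicalSpace C(X, ℝ) :=
      TopologicalSpace.induced (fun f : C(X, ℝ) => (f : X → ℝ)) inferInstance
    exact continuous_induced_rng.2 (continuous_subtype_val.comp
      (hT.comp (Continuous.subtype_mk continuous_induced_dom _)))
  · obtain ⟨k, hk⟩ := hb.2 ⟨g, g.continuous⟩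
    exact ⟨⟨k.1, k.2⟩, ContinuousMap.ext fun y => congrFun (congrArg Subtype.val hk) y⟩

end Pool.Agent.Results.MP_1f8704_gt.Linear
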